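import Pool.Agent.Helper9.TN.Basic

set_option autoImplicit false

open Finset
open scoped Nat

namespace Pool.Agent.TN

/-- a set of numbers up to `L` with all differences divisible by `q` -/
theorem c2_card_le {B : Finset ℕ} {L q : ℕ} (hL : ∀ b ∈ B, b ≤ L)
    (hd : ∀ b ∈ B, ∀ b' ∈ B, b ≤ b' → q ∣ b' - b) : B.card ≤ L / q + 1 := by
  rw [← Finset.card_range (L / q + 1)]
  apply Finset.card_le_card_of_injOn (fun b => b / q)
  · intro b hb
    simp only [coe_range, Set.mem_Iio]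
    exact Nat.lt_succ_of_le (Nat.div_le_div_right (hL b (Finset.mem_coe.mp hb)))
  · have key : ∀ b ∈ B, ∀ b' ∈ B, b ≤ b' → b / q = b' / q → b = b' := by
      intro b hb b' hb' hle he
      obtain ⟨k, hk⟩ := hd b hb b' hb' hle
      have h1 : b' = b + q * k := by omega
      rcases Nat.eq_zero_or_pos q with h0 | h0
      · subst h0; omega
      · rw [h1, Nat.add_mul_div_left _ _ h0] at he
        have : k = 0 := by omega
        rw [h1, this]; simp
    intro b hb b' hb' he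
    rcases le_total b b' with h | h
    · exact key b hb b' hb' h he
    · exact (key b' hb' b hb h he.symm).symm

/-- the least unitary divisor beyond the square root -/
theorem c2_unitary {N V t : ℕ} (hN : 1 ≤ N) (ht : N < t ^ 2)
    (hV : ∀ p, p.Prime → p ^ t.factorization p ≤ V) :
    ∃ a, a ∣ t ∧ N < a ^ 2 ∧ a ≤ V * Nat.sqrt N := by
  have ht0 : t ≠ 0 := by rintro rfl; simp at ht
  have hex : ∃ a, a ∣ t ∧ a.Coprime (t / a) ∧ N < a ^ 2 := by
    refine ⟨t, dvd_rfl, ?_, ht⟩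
    rw [Nat.div_self (Nat.pos_of_ne_zero ht0)]
    exact Nat.coprime_one_right t
  classical
  set a := Nat.find hex with ha
  obtain ⟨h1, h2, h3⟩ := Nat.find_spec hex
  rw [← ha] at h1 h2 h3
  refine ⟨a, h1, h3, ?_⟩
  have ha1 : a ≠ 1 := by intro h; rw [h] at h3; omega
  have ha0 : a ≠ 0 := by rintro h; rw [h] at h3; simp at h3
  set p := a.minFac with hp
  have hpp : p.Prime := Nat.minFac_prime ha1
  have hpa : p ∣ a := Nat.minFac_dvd a
  obtain ⟨b, hb⟩ := h1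
  have hb0 : b ≠ 0 := by rintro rfl; simp at hb; exact ht0 hb
  have hdiv : t / a = b := by rw [hb, Nat.mul_div_cancel_left _ (Nat.pos_of_ne_zero ha0)]
  rw [hdiv] at h2
  have hpb : ¬ p ∣ b := by
    intro h
    have := Nat.dvd_gcd hpa h
    rw [h2] at this
    exact hpp.one_lt.ne' (Nat.dvd_one.mp this)
  have hv : t.factorization p = a.factorization p := by
    rw [hb, Nat.factorization_mul ha0 hb0, Finsupp.add_apply,
      Nat.factorization_eq_zero_of_not_dvd hpb, add_zero]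
  set v := a.factorization p with hvdef
  have hsplit : p ^ v * (a / p ^ v) = a := Nat.ordProj_mul_ordCompl_eq_self a p
  set a' := a / p ^ v with ha'
  have hcop : (p ^ v).Coprime a' := (Nat.coprime_ordCompl hpp ha0).pow_left v
  have hv1 : 0 < v := hpp.factorization_pos_of_dvd ha0 hpa
  have ha'0 : 0 < a' := by
    rcases Nat.eq_zero_or_pos a' with h | h
    · rw [h, mul_zero] at hsplit; exact absurd hsplit.symm ha0
    · exact h
  have ha'lt : a' < a := by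
    have : 1 < p ^ v := Nat.one_lt_pow hv1.ne' hpp.one_lt
    nlinarith
  have hnot := Nat.find_min hex (m := a') (by rw [← ha]; exact ha'lt)
  have hsq : a' ^ 2 ≤ N := by
    by_contra hcon
    apply hnot
    refine ⟨?_, ?_, not_le.mp hcon⟩
    · exact (Dvd.intro_left _ hsplit).trans (Dvd.intro _ hb.symm)
    · have e : t / a' = p ^ v * b := by
        rw [hb, ← hsplit]
        rw [show p ^ v * a' * b = a' * (p ^ v * b) by ring, Nat.mul_div_cancel_left _ ha'0]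
      rw [e]
      apply Nat.Coprime.mul_right hcop.symm
      exact Nat.Coprime.coprime_dvd_left (Dvd.intro_left _ hsplit) h2
  have hV' : p ^ v ≤ V := by rw [← hv]; exact hV p hpp
  calc a = p ^ v * a' := hsplit.symm
    _ ≤ V * Nat.sqrt N := Nat.mul_le_mul hV' (Nat.le_sqrt'.mpr hsq)

/-- counting the solutions `t` of `φ(m) t = m φ(t) + c(m)` with smooth `t` -/
theorem c2_core (N M V : ℕ) (hN : 1 ≤ N) (cf : ℕ → ℕ)
    (S : Finset ℕ)
    (hS : ∀ t ∈ S, t ≤ N + 1 ∧ N < t ^ 2 ∧ (∃ m, 1 ≤ m ∧ m ≤ M ∧ 0 < cf m ∧ cf m ≤ 2 * m ^ 2 ∧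
      φ m * t = m * φ t + cf m) ∧ ∀ p, p.Prime → p ^ t.factorization p ≤ V) :
    S.card ≤ M * (V * Nat.sqrt N) * (2 * M ^ 3 * (1 + Nat.log 2 (N + 1)) + 1) := by
  classical
  have hm : ∀ t : ℕ, ∃ m, t ∈ S → 1 ≤ m ∧ m ≤ M ∧ 0 < cf m ∧ cf m ≤ 2 * m ^ 2 ∧
      φ m * t = m * φ t + cf m := by
    intro t
    by_cases h : t ∈ S
    · obtain ⟨m, hm⟩ := (hS t h).2.2.1
      exact ⟨m, fun _ => hm⟩
    · exact ⟨0, fun h' => absurd h' h⟩
  choose m hm using hm
  have ha : ∀ t : ℕ, ∃ a, t ∈ S → a ∣ t ∧ N < a ^ 2 ∧ a ≤ V * Nat.sqrt N := by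
    intro t
    by_cases h : t ∈ S
    · obtain ⟨a, ha⟩ := c2_unitary hN (hS t h).2.1 (hS t h).2.2.2
      exact ⟨a, fun _ => ha⟩
    · exact ⟨0, fun h' => absurd h' h⟩
  choose a ha using ha
  have hmaps : ∀ t ∈ S, (m t, a t) ∈ (Finset.Icc 1 M) ×ˢ (Finset.Icc 1 (V * Nat.sqrt N)) := by
    intro t ht
    rw [mem_product, mem_Icc, mem_Icc]
    refine ⟨⟨(hm t ht).1, (hm t ht).2.1⟩, ?_, (ha t ht).2.2⟩
    rcases Nat.eq_zero_or_pos (a t) with h | h
    · have := (ha t ht).2.1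
      rw [h] at this; simp at this
    · exact h
  have hfib : ∀ x ∈ (Finset.Icc 1 M) ×ˢ (Finset.Icc 1 (V * Nat.sqrt N)),
      (S.filter (fun t => (m t, a t) = x)).card ≤
        2 * M ^ 3 * (1 + Nat.log 2 (N + 1)) + 1 := by
    rintro ⟨m₀, a₀⟩ hx
    rw [mem_product, mem_Icc, mem_Icc] at hx
    obtain ⟨⟨hm1, hm2⟩, ha1, ha2⟩ := hx
    simp only at hm1 hm2 ha1 ha2
    set F := S.filter (fun t => (m t, a t) = (m₀, a₀)) with hF
    rcases F.eq_empty_or_nonempty with hE | hE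
    · rw [hE]; simp
    -- facts on the elements
    have hFm : ∀ t ∈ F, t ∈ S ∧ m t = m₀ ∧ a t = a₀ := by
      intro t ht
      rw [hF, mem_filter] at ht
      simp only [Prod.mk.injEq] at ht
      exact ht
    have hc : ∀ t ∈ F, a₀ ∣ t ∧ N < a₀ ^ 2 ∧ 0 < cf m₀ ∧ cf m₀ ≤ 2 * m₀ ^ 2 ∧
        φ m₀ * t = m₀ * φ t + cf m₀ ∧ t ≤ N + 1 := by
      intro t ht
      obtain ⟨h1, h2, h3⟩ := hFm t ht
      have h4 := hm t h1
      have h5 := ha t h1
      rw [h2] at h4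
      rw [h3] at h5
      exact ⟨h5.1, h5.2.1, h4.2.2.1, h4.2.2.2.1, h4.2.2.2.2, (hS t h1).1⟩
    obtain ⟨t₀, ht₀⟩ := hE
    obtain ⟨k1, k2, k3, k4, k5, k6⟩ := hc t₀ ht₀
    have ha₀ : 0 < a₀ := ha1
    have hφa : 0 < φ a₀ := Nat.totient_pos.mpr ha₀
    have hφm : 0 < φ m₀ := Nat.totient_pos.mpr hm1
    set g := Nat.gcd (φ a₀) (φ m₀ * a₀) with hg
    have hg0 : 0 < g := Nat.gcd_pos_of_pos_left _ hφa
    have hgle : g ≤ 2 * M ^ 3 := by
      have e1 : g ∣ φ m₀ * Nat.gcd (φ a₀) a₀ := by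
        rw [← Nat.gcd_mul_left]
        exact Nat.gcd_dvd_gcd_mul_left_left (φ a₀) (φ m₀ * a₀) (φ m₀)
      have e2 : Nat.gcd (φ a₀) a₀ ∣ cf m₀ := by
        have f1 : Nat.gcd (φ a₀) a₀ ∣ φ m₀ * t₀ :=
          ((Nat.gcd_dvd_right _ _).trans k1).mul_left _
        have f2 : Nat.gcd (φ a₀) a₀ ∣ m₀ * φ t₀ :=
          ((Nat.gcd_dvd_left _ _).trans (Nat.totient_dvd_of_dvd k1)).mul_left _
        rw [k5] at f1
        exact (Nat.dvd_add_right f2).mp f1
      have e3 : Nat.gcd (φ a₀) a₀ ≤ 2 * m₀ ^ 2 := (Nat.le_of_dvd k3 e2).trans k4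
      have e4 : g ≤ φ m₀ * Nat.gcd (φ a₀) a₀ :=
        Nat.le_of_dvd (Nat.mul_pos hφm (Nat.gcd_pos_of_pos_left _ hφa)) e1
      calc g ≤ φ m₀ * Nat.gcd (φ a₀) a₀ := e4
        _ ≤ m₀ * (2 * m₀ ^ 2) := Nat.mul_le_mul (Nat.totient_le m₀) e3
        _ ≤ M * (2 * M ^ 2) := by gcongr
        _ = 2 * M ^ 3 := by ring
    obtain ⟨q, hq⟩ : g ∣ φ a₀ := Nat.gcd_dvd_left _ _
    obtain ⟨w, hw⟩ : g ∣ φ m₀ * a₀ := Nat.gcd_dvd_right _ _
    have hq0 : 0 < q := by
      rcases Nat.eq_zero_or_pos q with h | h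
      · rw [h, mul_zero] at hq; omega
      · exact h
    have hqw : q.Coprime w := by
      have : g = g * Nat.gcd q w := by
        conv_lhs => rw [hg, hq, hw]
        rw [Nat.gcd_mul_left]
      have h1 : Nat.gcd q w = 1 := by
        have h2 : g * Nat.gcd q w = g * 1 := by rw [mul_one]; exact this.symm
        exact Nat.eq_of_mul_eq_mul_left hg0 h2
      exact h1
    -- the quotients
    have hB : F.card = (F.image (fun t => t / a₀)).card := by
      rw [card_image_of_injOn]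
      intro t ht t' ht' he
      have e1 := (hc t (mem_coe.mp ht)).1
      have e2 := (hc t' (mem_coe.mp ht')).1
      simp only at he
      rw [← Nat.mul_div_cancel' e1, he, Nat.mul_div_cancel' e2]
    rw [hB]
    have h6 : (F.image (fun t => t / a₀)).card ≤ ((N + 1) / a₀) / q + 1 := by
      apply c2_card_le
      · intro b hb
        obtain ⟨t, ht, rfl⟩ := mem_image.mp hb
        exact Nat.div_le_div_right (hc t ht).2.2.2.2.2
      · intro b hb b' hb' hle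
        obtain ⟨t, ht, rfl⟩ := mem_image.mp hb
        obtain ⟨t', ht', rfl⟩ := mem_image.mp hb'
        obtain ⟨⟨b, rfl⟩, -, -, -, r5, -⟩ := hc t ht
        obtain ⟨⟨b', rfl⟩, -, -, -, r5', -⟩ := hc t' ht'
        rw [Nat.mul_div_cancel_left _ ha₀, Nat.mul_div_cancel_left _ ha₀] at hle ⊢
        have d1 : φ a₀ ∣ m₀ * φ (a₀ * b) :=
          (Nat.totient_dvd_of_dvd (Nat.dvd_mul_right a₀ b)).mul_left _
        have d2 : φ a₀ ∣ m₀ * φ (a₀ * b') :=
          (Nat.totient_dvd_of_dvd (Nat.dvd_mul_right a₀ b')).mul_left _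
        have d3 : (φ a₀ : ℤ) ∣ (φ m₀ * a₀ : ℤ) * ((b' - b : ℕ) : ℤ) := by
          have z1 : (φ a₀ : ℤ) ∣ (m₀ * φ (a₀ * b) : ℤ) := by exact_mod_cast d1
          have z2 : (φ a₀ : ℤ) ∣ (m₀ * φ (a₀ * b') : ℤ) := by exact_mod_cast d2
          have z3 := dvd_sub z2 z1
          have z4 : (φ m₀ * (a₀ * b) : ℤ) = m₀ * φ (a₀ * b) + cf m₀ := by exact_mod_cast r5
          have z5 : (φ m₀ * (a₀ * b') : ℤ) = m₀ * φ (a₀ * b') + cf m₀ := by exact_mod_cast r5'
          have z6 : (φ m₀ * a₀ : ℤ) * ((b' - b : ℕ) : ℤ) =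
              (m₀ * φ (a₀ * b') : ℤ) - (m₀ * φ (a₀ * b) : ℤ) := by
            rw [Nat.cast_sub hle]
            linear_combination z5 - z4
          rw [z6]; exact z3
        have d4 : φ a₀ ∣ (φ m₀ * a₀) * (b' - b) := by exact_mod_cast d3
        rw [hq, hw, mul_assoc] at d4
        have d5 : q ∣ w * (b' - b) := Nat.dvd_of_mul_dvd_mul_left hg0 d4
        exact hqw.dvd_of_dvd_mul_left d5
    refine h6.trans (Nat.add_le_add_right ?_ 1)
    -- the size
    have h7 : (N + 1) / a₀ ≤ a₀ := by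
      apply Nat.div_le_of_le_mul
      nlinarith
    have ha₀N : a₀ ≤ N + 1 := (Nat.le_of_dvd (by
      rcases Nat.eq_zero_or_pos t₀ with h | h
      · have := (hS t₀ (hFm t₀ ht₀).1).2.1
        rw [h] at this; simp at this
      · exact h) k1).trans k6
    have h8 : a₀ ≤ q * (2 * M ^ 3 * (1 + Nat.log 2 (N + 1))) := by
      calc a₀ ≤ φ a₀ * (1 + Nat.log 2 a₀) := le_totient_mul ha₀.ne'
        _ = g * q * (1 + Nat.log 2 a₀) := by rw [← hq]
        _ ≤ (2 * M ^ 3) * q * (1 + Nat.log 2 (N + 1)) := by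
            apply Nat.mul_le_mul (Nat.mul_le_mul_right _ hgle)
            exact Nat.add_le_add_left (Nat.log_mono_right ha₀N) 1
        _ = _ := by ring
    exact Nat.div_le_of_le_mul (h7.trans h8)
  have := Finset.card_le_mul_card_image_of_maps_to hmaps _ hfib
  rw [card_product, Nat.card_Icc, Nat.card_Icc, Nat.add_sub_cancel, Nat.add_sub_cancel] at this
  linarith

theorem c2_real {N M V s : ℕ} (hM : 1 ≤ M) (hN : 1 ≤ N)
    (h : s ≤ M * (V * Nat.sqrt N) * (2 * M ^ 3 * (1 + Nat.log 2 (N + 1)) + 1)) :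
    (s : ℝ) ≤ 20 * M ^ 4 * V * Real.sqrt N * (2 + Real.log N) ^ 2 := by
  have hN1 : (1 : ℝ) ≤ N := by exact_mod_cast hN
  have hM1 : (1 : ℝ) ≤ M := by exact_mod_cast hM
  have hlog : 0 ≤ Real.log N := Real.log_nonneg hN1
  have h1 : (Nat.sqrt N : ℝ) ≤ Real.sqrt N := Real.nat_sqrt_le_real_sqrt
  have h2 : Nat.log 2 (N + 1) ≤ 1 + Nat.log 2 N := by
    calc Nat.log 2 (N + 1) ≤ Nat.log 2 (N * 2) := Nat.log_mono_right (by omega)
      _ = Nat.log 2 N + 1 := Nat.log_mul_base (by norm_num) (by omega)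
      _ = _ := by ring
  have h3 : (Nat.log 2 N : ℝ) ≤ 2 * Real.log N := by
    have e1 : 2 ^ Nat.log 2 N ≤ N := Nat.pow_log_le_self 2 (by omega)
    have e2 : ((2 : ℝ) ^ Nat.log 2 N) ≤ N := by exact_mod_cast e1
    have e3 := Real.log_le_log (by positivity) e2
    rw [Real.log_pow] at e3
    have e4 : (1 / 2 : ℝ) ≤ Real.log 2 := by have := Real.log_two_gt_d9; linarith
    have e5 : (0 : ℝ) ≤ Nat.log 2 N := by positivity
    nlinarith
  have h4 : (Nat.log 2 (N + 1) : ℝ) ≤ 1 + 2 * Real.log N := by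
    have : (Nat.log 2 (N + 1) : ℝ) ≤ 1 + Nat.log 2 N := by exact_mod_cast h2
    linarith
  have h5 : (s : ℝ) ≤ M * (V * Nat.sqrt N) * (2 * M ^ 3 * (1 + Nat.log 2 (N + 1)) + 1) := by
    exact_mod_cast h
  have hM3 : (1 : ℝ) ≤ M ^ 3 := one_le_pow₀ hM1
  have h6 : (2 * (M : ℝ) ^ 3 * (1 + Nat.log 2 (N + 1)) + 1) ≤
      20 * M ^ 3 * (2 + Real.log N) ^ 2 := by
    have e1 : (2 * (M : ℝ) ^ 3 * (1 + Nat.log 2 (N + 1)) + 1) ≤
        M ^ 3 * (2 * (2 + 2 * Real.log N) + 1) := by nlinarith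
    have e2 : (2 * (2 + 2 * Real.log N) + 1) ≤ 20 * (2 + Real.log N) ^ 2 := by nlinarith
    calc _ ≤ (M : ℝ) ^ 3 * (2 * (2 + 2 * Real.log N) + 1) := e1
      _ ≤ (M : ℝ) ^ 3 * (20 * (2 + Real.log N) ^ 2) := by gcongr
      _ = _ := by ring
  calc (s : ℝ) ≤ M * (V * Nat.sqrt N) * (2 * M ^ 3 * (1 + Nat.log 2 (N + 1)) + 1) := h5
    _ ≤ M * (V * Real.sqrt N) * (20 * M ^ 3 * (2 + Real.log N) ^ 2) := by gcongr
    _ = _ := by ring

theorem caseIIa_count (N M V : ℕ) (hM : 1 ≤ M) (hV : 1 ≤ V) (hN : 1 ≤ N) (S : Finset ℕ)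
    (hS : ∀ n ∈ S, 1 ≤ n ∧ n ≤ N ∧ φ n = φ (n + 1) ∧ N < n ^ 2 ∧ (∃ r : ℕ, r.Prime ∧
      r ∣ n ∧ ¬ r ^ 2 ∣ n ∧ n ≤ M * r) ∧
      ∀ p, p.Prime → p ^ (n + 1).factorization p ≤ V) :
    (S.card : ℝ) ≤ 20 * M ^ 4 * V * Real.sqrt N * (2 + Real.log N) ^ 2 := by
  have hcard : S.card = (S.image (fun n => n + 1)).card := by
    rw [card_image_of_injective]
    exact fun x y h => by simpa using h
  rw [hcard]
  apply c2_real hM hN
  apply c2_core N M V hN (fun m => φ m * (m + 1))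
  intro t ht
  obtain ⟨n, hn, rfl⟩ := mem_image.mp ht
  obtain ⟨h1, h2, h3, h4, ⟨r, hr, ⟨m, hm⟩, hr2, hr3⟩, h5⟩ := hS n hn
  refine ⟨by omega, by nlinarith, ⟨m, ?_, ?_, ?_, ?_, ?_⟩, h5⟩
  · rcases Nat.eq_zero_or_pos m with h | h
    · rw [h] at hm; omega
    · exact h
  · rw [hm, mul_comm] at hr3
    exact Nat.le_of_mul_le_mul_right hr3 hr.pos
  · have hm0 : 0 < m := by
      rcases Nat.eq_zero_or_pos m with h | h
      · rw [h] at hm; omega
      · exact h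
    exact Nat.mul_pos (Nat.totient_pos.mpr hm0) (by omega)
  · have := Nat.totient_le m
    rcases Nat.eq_zero_or_pos m with h | h
    · subst h; simp
    · nlinarith
  · have hcop : r.Coprime m := by
      rw [hr.coprime_iff_not_dvd]
      rintro ⟨k, hk⟩
      apply hr2
      rw [hm, hk]
      exact ⟨k, by ring⟩
    rw [← h3, hm, Nat.totient_mul hcop, Nat.totient_prime hr]
    obtain ⟨r', rfl⟩ : ∃ r', r = r' + 1 := ⟨r - 1, by have := hr.pos; omega⟩
    simp only [Nat.add_sub_cancel]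
    ring

theorem caseIIb_count (N M V : ℕ) (hM : 1 ≤ M) (hV : 1 ≤ V) (hN : 1 ≤ N) (S : Finset ℕ)
    (hS : ∀ n ∈ S, 2 ≤ n ∧ n ≤ N ∧ φ n = φ (n + 1) ∧ N < n ^ 2 ∧ (∃ r : ℕ, r.Prime ∧
      r ∣ n + 1 ∧ ¬ r ^ 2 ∣ n + 1 ∧ n + 1 ≤ M * r) ∧
      ∀ p, p.Prime → p ^ n.factorization p ≤ V) :
    (S.card : ℝ) ≤ 20 * M ^ 4 * V * Real.sqrt N * (2 + Real.log N) ^ 2 := by
  apply c2_real hM hN
  apply c2_core N M V hN (fun m => φ m * (m - 1))
  intro n hn
  obtain ⟨h1, h2, h3, h4, ⟨r, hr, ⟨m, hm⟩, hr2, hr3⟩, h5⟩ := hS n hn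
  have hm0 : 0 < m := by
    rcases Nat.eq_zero_or_pos m with h | h
    · rw [h] at hm; omega
    · exact h
  have hcop : r.Coprime m := by
    rw [hr.coprime_iff_not_dvd]
    rintro ⟨k, hk⟩
    apply hr2
    rw [hm, hk]
    exact ⟨k, by ring⟩
  have hm2 : 2 ≤ m := by
    by_contra hcon
    have hm1 : m = 1 := by omega
    rw [hm1, mul_one] at hm
    rw [hm, Nat.totient_prime hr] at h3
    have := Nat.totient_lt n (by omega)
    omega
  refine ⟨by omega, h4, ⟨m, hm0, ?_, ?_, ?_, ?_⟩, h5⟩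
  · rw [hm, mul_comm] at hr3
    exact Nat.le_of_mul_le_mul_right hr3 hr.pos
  · exact Nat.mul_pos (Nat.totient_pos.mpr hm0) (by omega)
  · have e1 := Nat.totient_le m
    calc φ m * (m - 1) ≤ m * m := Nat.mul_le_mul e1 (by omega)
      _ ≤ 2 * m ^ 2 := by nlinarith
  · rw [h3, hm, Nat.totient_mul hcop, Nat.totient_prime hr]
    obtain ⟨r', rfl⟩ : ∃ r', r = r' + 1 := ⟨r - 1, by have := hr.pos; omega⟩
    obtain ⟨m', rfl⟩ : ∃ m', m = m' + 1 := ⟨m - 1, by omega⟩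
    have e : n = (r' + 1) * (m' + 1) - 1 := by omega
    have e2 : n = r' * (m' + 1) + m' := by
      rw [e, add_mul, one_mul]; omega
    simp only [Nat.add_sub_cancel]
    rw [e2]
    ring

end Pool.Agent.TN
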